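import Pool.Agent.helper95.SP.SpecCH

/-!
# Module sp:KUPP: upper bound by independence
-/

namespace TP.K

open DP MeasureTheory

theorem UPP_box {x : V} {m n : ℕ} : ann x m n ⊆ box x n := fun _ hv => hv.2

theorem UPP_dis {x : V} {A A' : Set V} {m n : ℕ} (hA : ∀ v ∈ A, sd x v ≤ m)
    (hA' : ∀ v ∈ A', n ≤ sd x v) (h : m + 2 ≤ n) : BDis A A' := by
  apply BDis.of_sd
  intro v hv w hw
  have h1 := hA v hv
  have h2 := hA' w hw
  have h3 := sd_triangle x v w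
  omega

theorem UPP (hLQ : LQ_stmt) (hWI : WI_stmt) (hWB : WB_stmt) : UPP_stmt := by
  intro x t a lo hi I Z ha hta halo hlohi hhiI hZ hZ0
  obtain ⟨hL, -, -, hsub, -, -⟩ := hLQ
  obtain ⟨h1, hmono, -, -, hLmono, hconst, -, -⟩ := hWB
  have p1 : 2 ^ a + 2 ≤ 2 ^ lo := by
    have e1 : (2 : ℕ) ^ (a + 1) ≤ 2 ^ lo := Nat.pow_le_pow_right (by norm_num) halo
    have e2 : (2 : ℕ) ^ (a + 1) = 2 ^ a + 2 ^ a := by ring
    have e3 : (2 : ℕ) ^ 1 ≤ 2 ^ a := Nat.pow_le_pow_right (by norm_num) ha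
    omega
  have p2 : 2 ^ hi + 2 ≤ 2 ^ (hi + 3) := by
    have e2 : (2 : ℕ) ^ (hi + 3) = 8 * 2 ^ hi := by ring
    have e3 : 1 ≤ 2 ^ hi := Nat.one_le_two_pow
    omega
  have p3 : (2 : ℕ) ^ lo ≤ 2 ^ (hi + 3) := Nat.pow_le_pow_right (by norm_num) (by omega)
  have p4 : (2 : ℕ) ^ hi ≤ 2 ^ I := Nat.pow_le_pow_right (by norm_num) (by omega)
  have hB : Loc (F4 x t a) (box x (2 ^ a)) := (hL x t a).mono UPP_box
  have hO : Loc (F4 x lo hi ∩ F4 x (hi + 3) I) (ann x (2 ^ lo) (2 ^ I)) := by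
    refine ((hL x lo hi).inter (hL x (hi + 3) I)).mono ?_
    rintro v (hv | hv)
    · exact ⟨hv.1, hv.2.trans p4⟩
    · exact ⟨p3.trans hv.1, hv.2⟩
  have hincl : F4 x t I ⊆ F4 x t a ∩ (F4 x lo hi ∩ F4 x (hi + 3) I) := fun b hb =>
    ⟨hsub x t t a I le_rfl hta (by omega) hb,
      hsub x t lo hi I (by omega) hlohi (by omega) hb,
      hsub x t (hi + 3) I I (by omega) (by omega) le_rfl hb⟩
  have s1 : EZ Z (F4 x t I) ≤ EZ Z (F4 x t a ∩ (F4 x lo hi ∩ F4 x (hi + 3) I)) := by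
    refine hmono Z Z _ _ (box x (2 ^ a)) Set.univ hZ hZ ?_ ?_ hincl hZ0 (fun _ => le_rfl)
    · exact (hL x t I).mono (Set.subset_univ _)
    · exact (hB.inter hO).mono (Set.subset_univ _)
  have s2 := hWI (box x (2 ^ a)) (ann x (2 ^ lo) (2 ^ I)) Z (fun _ => 1) (F4 x t a)
    (F4 x lo hi ∩ F4 x (hi + 3) I) (UPP_dis (fun v hv => hv) (fun v hv => hv.1) p1) hZ
    (hconst 1 _) hB hO
  have s3 := hWI (ann x (2 ^ lo) (2 ^ hi)) (ann x (2 ^ (hi + 3)) (2 ^ I)) (fun _ => 1) (fun _ => 1)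
    (F4 x lo hi) (F4 x (hi + 3) I) (UPP_dis (fun v hv => hv.2) (fun v hv => hv.1) p2)
    (hconst 1 _) (hconst 1 _) (hL x lo hi) (hL x (hi + 3) I)
  simp only [mul_one] at s2 s3
  rw [h1, h1, h1] at s3
  rw [h1, s3] at s2
  rw [← s2]
  exact s1

end TP.K
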